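import Mathlib

namespace Pool.Agent.Results.MP_67072b_lc.Finite

open Set Filter Topology

/-- Automatic continuity: two comparable Polish topologies on a group with continuous
translations agree. -/
theorem auto {G : Type} [Group G] (t p : TopologicalSpace G) (ht : @PolishSpace G t)
    (hp : @PolishSpace G p) (hle : t ≤ p)
    (hl : ∀ g : G, Continuous[p, p] (fun x => g * x))
    (hl' : ∀ g : G, Continuous[p, p] (fun x => x * g))
    (hr : ∀ g : G, Continuous[t, t] (fun x => x * g)) : t = p := by
  refine le_antisymm hle ?_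
  have hb := MeasureTheory.borel_eq_borel_of_le ht hp hle
  obtain ⟨B, hBc, -, hB⟩ := @TopologicalSpace.exists_countable_basis G t
    (@PolishSpace.toSecondCountableTopology G t ht)
  have key : ∀ b ∈ B, ∃ o : Set G, IsOpen[p] o ∧ ∀ᶠ x in @residual G p, (x ∈ b ↔ x ∈ o) := by
    intro b hbB
    let := p
    let : MeasurableSpace G := borel G
    have : BorelSpace G := ⟨rfl⟩
    have hm : MeasurableSet b := by
      change @MeasurableSet G (@borel G p) b
      rw [← hb]
      exact MeasurableSpace.measurableSet_generateFrom (@TopologicalSpace.IsTopologicalBasis.isOpen G t _ _ hB hbB)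
    obtain ⟨o, ho, h⟩ := hm.residualEq_isOpen
    exact ⟨o, ho, h.mono fun x hx => Iff.of_eq hx⟩
  choose! O hO hOr using key
  let := p
  have hD : ∀ᶠ x in residual G, ∀ b ∈ B, (x ∈ b ↔ x ∈ O b) :=
    (eventually_countable_ball hBc).2 hOr
  have hT : ∀ g : G, ∀ᶠ x in residual G, ∀ b ∈ B, (g * x ∈ b ↔ g * x ∈ O b) := by
    intro g
    let e : G ≃ₜ G := ⟨Equiv.mulLeft g, hl g, by simpa using hl g⁻¹⟩
    exact (tendsto_residual_of_isOpenMap e.continuous e.isOpenMap).eventually hD
  have : Continuous[p, t] (id : G → G) := by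
    refine (@continuous_iff_seqContinuous G G p t _ _).2 ?_
    intro u g hu
    have h1 : ∀ᶠ x in residual G, (∀ n, ∀ b ∈ B, (u n * x ∈ b ↔ u n * x ∈ O b)) ∧
        ∀ b ∈ B, (g * x ∈ b ↔ g * x ∈ O b) :=
      (eventually_countable_forall.2 fun n => hT (u n)).and (hT g)
    obtain ⟨h, hh1, hh2⟩ := (dense_of_mem_residual h1).nonempty
    have h2 : Tendsto (fun n => u n * h) atTop (𝓝 (g * h)) :=
      ((hl' h).tendsto g).comp hu
    have h3 : Tendsto (fun n => u n * h) atTop (@nhds G t (g * h)) := by
      rw [(@TopologicalSpace.IsTopologicalBasis.nhds_hasBasis G t _ hB (g * h)).tendsto_right_iff]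
      rintro b ⟨hbB, hgb⟩
      have := h2.eventually ((hO b hbB).mem_nhds ((hh2 b hbB).1 hgb))
      exact this.mono fun n hn => (hh1 n b hbB).2 hn
    have h4 := (@Continuous.tendsto G G t t _ (hr h⁻¹) (g * h)).comp h3
    simpa [Function.comp_def] using h4
  exact continuous_id_iff_le.1 this

abbrev G := Equiv.Perm ℕ

/-- pointwise topology -/
@[reducible] def pG : TopologicalSpace G :=
  TopologicalSpace.induced (fun g : G => (((g : ℕ → ℕ)), ((g.symm : ℕ → ℕ)))) inferInstance

theorem tendsto_pG {α : Type} {l : Filter α} {f : α → G} {g : G} :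
    Tendsto f l (@nhds G pG g) ↔ ∀ k, ∀ᶠ a in l, f a k = g k := by
  rw [nhds_induced, tendsto_comap_iff, Prod.tendsto_iff]
  simp only [tendsto_pi_nhds, nhds_discrete, tendsto_pure, Function.comp]
  refine ⟨fun h => h.1, fun h => ⟨h, fun k => (h (g.symm k)).mono fun a ha => ?_⟩⟩
  rw [Equiv.symm_apply_eq, ha, Equiv.apply_symm_apply]

theorem polish_pG : @PolishSpace G pG := by
  let := pG
  have : IsClosedEmbedding (fun g : G => (((g : ℕ → ℕ)), ((g.symm : ℕ → ℕ)))) := by
    refine ⟨⟨⟨rfl⟩, fun a b h => Equiv.ext fun k => congrFun (congrArg Prod.fst h) k⟩, ?_⟩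
    have : range (fun g : G => (((g : ℕ → ℕ)), ((g.symm : ℕ → ℕ)))) =
        ⋂ k : ℕ, ({x : (ℕ → ℕ) × (ℕ → ℕ) | x.1 (x.2 k) = k} ∩ {x | x.2 (x.1 k) = k}) := by
      ext x
      simp only [mem_range, mem_iInter, mem_inter_iff, mem_ofPred_eq]
      constructor
      · rintro ⟨g, rfl⟩ k
        simp
      · intro h
        exact ⟨⟨x.1, x.2, fun k => (h k).2, fun k => (h k).1⟩, rfl⟩
    rw [this]
    have ev : ∀ k : ℕ, Continuous fun x : (ℕ → ℕ) × (ℕ → ℕ) => x.1 (x.2 k) := by
      intro k
      refine continuous_iff_continuousAt.2 fun x => ?_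
      have h1 : ∀ᶠ y in 𝓝 x, y.2 k = x.2 k :=
        (((continuous_apply k).comp continuous_snd).tendsto x).eventually
          (p := fun z => z = x.2 k) (by simp [nhds_discrete])
      have h2 : ContinuousAt (fun y : (ℕ → ℕ) × (ℕ → ℕ) => y.1 (x.2 k)) x :=
        ((continuous_apply (x.2 k)).comp continuous_fst).continuousAt
      refine h2.congr (h1.mono fun y hy => ?_)
      simp [hy]
    refine isClosed_iInter fun k => IsClosed.inter (isClosed_eq (ev k) continuous_const) ?_
    exact isClosed_eq ((ev k).comp continuous_swap) continuous_const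
  exact this.polishSpace

abbrev C (m : ℕ) := ℕ ⊕ Fin (m + 2)

/-- topologies on the constants -/
@[reducible] def tC {m : ℕ} (o : Option (Fin (m + 2))) : TopologicalSpace (C m) where
  IsOpen U := ∀ p, o = some p → Sum.inr p ∈ U → ∀ᶠ k in cofinite, Sum.inl k ∈ U
  isOpen_univ := fun _ _ _ => Eventually.of_forall fun _ => trivial
  isOpen_inter := fun _ _ h1 h2 p hp h => (h1 p hp h.1).and (h2 p hp h.2)
  isOpen_sUnion := fun _ h p hp ⟨t, ht, hx⟩ => (h t ht p hp hx).mono fun _ hk => ⟨t, ht, hk⟩

theorem isOpen_tC {m : ℕ} {o : Option (Fin (m + 2))} {U : Set (C m)} :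
    IsOpen[tC o] U ↔ ∀ p, o = some p → Sum.inr p ∈ U → ∀ᶠ k in cofinite, Sum.inl k ∈ U := Iff.rfl

theorem polish_tC {m : ℕ} (o : Option (Fin (m + 2))) : @PolishSpace (C m) (tC o) := by
  let := tC o
  cases o with
  | none =>
    have : DiscreteTopology (C m) :=
      discreteTopology_iff_forall_isOpen.2 fun U => isOpen_tC.2 (by simp)
    infer_instance
  | some p =>
    have ht : Tendsto (Sum.inl : ℕ → C m) cofinite (𝓝 (Sum.inr p)) := by
      refine tendsto_nhds.2 fun U hU hp => isOpen_tC.1 hU p rfl hp
    have : CompactSpace (C m) := by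
      refine ⟨?_⟩
      have h1 := ht.isCompact_insert_range_of_cofinite
      have h2 : IsCompact (range (Sum.inr : Fin (m + 2) → C m)) := (finite_range _).isCompact
      convert h1.union h2 using 1
      ext x
      rcases x with k | q <;> simp
    let φ : C m → ENNReal × Fin (m + 2) :=
      Sum.elim (fun k => ((k : ENNReal), p)) (fun q => (⊤, q))
    have hc : Continuous φ := by
      refine ⟨fun V hV => isOpen_tC.2 ?_⟩
      intro q hq hqV
      obtain rfl : p = q := Option.some.inj hq
      have : Tendsto (fun k : ℕ => ((k : ENNReal), p)) cofinite (𝓝 (⊤, p)) := by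
        rw [Nat.cofinite_eq_atTop]
        exact ENNReal.tendsto_nat_nhds_top.prodMk_nhds tendsto_const_nhds
      exact this.eventually (hV.mem_nhds hqV)
    have hi : Function.Injective φ := by
      rintro (a | a) (b | b) h <;> simp [φ] at h ⊢
      · exact h
      · exact h
    exact (hc.isClosedEmbedding hi).polishSpace

theorem tC_inj {m : ℕ} : Function.Injective (tC (m := m)) := by
  have key : ∀ o o' : Option (Fin (m + 2)), tC o = tC o' → ∀ p, o = some p → o' = some p := by
    intro o o' h p hp
    by_contra hne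
    have h1 : IsOpen[tC o'] ({Sum.inr p} : Set (C m)) := by
      refine isOpen_tC.2 fun q hq hq' => ?_
      obtain rfl : q = p := by simpa using hq'
      exact absurd hq hne
    rw [← h] at h1
    have := isOpen_tC.1 h1 p hp rfl
    simp at this
    exact infinite_univ this
  intro o o' h
  cases o with
  | some p => exact (key _ _ h p rfl).symm
  | none =>
    cases o' with
    | none => rfl
    | some q => exact key _ _ h.symm q rfl

def act {m : ℕ} (g : G) : C m → C m := Sum.map g id

def mul {m : ℕ} : G ⊕ C m → G ⊕ C m → G ⊕ C m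
  | Sum.inl g, Sum.inl h => Sum.inl (g * h)
  | Sum.inl g, Sum.inr x => Sum.inr (act g x)
  | Sum.inr x, _ => Sum.inr x

@[reducible] def sg (m : ℕ) : Semigroup (G ⊕ C m) where
  mul := mul
  mul_assoc := by
    rintro (a | a) (b | b) (c | c) <;> change mul (mul _ _) _ = mul _ (mul _ _) <;>
      simp [mul, mul_assoc, act]

@[reducible] def T {m : ℕ} (o : Option (Fin (m + 2))) : TopologicalSpace (G ⊕ C m) :=
  @instTopologicalSpaceSum G (C m) pG (tC o)

theorem act_cont {m : ℕ} (o : Option (Fin (m + 2))) :
    @Continuous (G × C m) (C m) (@instTopologicalSpaceProd _ _ pG (tC o)) (tC o)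
      (fun x => act x.1 x.2) := by
  let := pG
  let := tC o
  refine continuous_iff_continuousAt.2 ?_
  rintro ⟨g, x⟩
  have hfst : ∀ k, ∀ᶠ y in 𝓝 (g, x), y.1 k = g k :=
    tendsto_pG.1 (continuous_fst.tendsto (g, x))
  refine tendsto_nhds.2 fun U hU hx => ?_
  rcases x with k | q
  · have h1 : IsOpen ({Sum.inl k} : Set (C m)) := isOpen_tC.2 (by simp)
    have h2 := (continuous_snd.tendsto (g, (Sum.inl k : C m))).eventually (h1.mem_nhds rfl)
    filter_upwards [h2, hfst k] with y hy1 hy2
    obtain ⟨h, z⟩ := y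
    obtain rfl : z = Sum.inl k := hy1
    have hy3 : h k = g k := hy2
    simpa [act, hy3] using hx
  · by_cases hq : o = some q
    · have hf : {k | Sum.inl k ∉ U}.Finite := isOpen_tC.1 hU q hq hx
      have hf2 : (g ⁻¹' {k | Sum.inl k ∉ U}).Finite := hf.preimage g.injective.injOn
      have h3 : ∀ᶠ y in 𝓝 (g, (Sum.inr q : C m)), ∀ k ∈ g ⁻¹' {k | Sum.inl k ∉ U}, y.1 k = g k :=
        (eventually_all_finite hf2).2 fun k _ => hfst k
      have h1 : IsOpen ({Sum.inr q} ∪ Sum.inl '' (g ⁻¹' {k | Sum.inl k ∉ U})ᶜ : Set (C m)) := by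
        refine isOpen_tC.2 fun p _ _ => ?_
        filter_upwards [hf2.compl_mem_cofinite] with k hk
        exact Or.inr ⟨k, hk, rfl⟩
      have h2 := (continuous_snd.tendsto (g, (Sum.inr q : C m))).eventually
        (h1.mem_nhds (Or.inl rfl))
      filter_upwards [h2, h3] with y hy1 hy2
      obtain ⟨h, z⟩ := y
      rcases hy1 with hz | ⟨k, hk, hz⟩
      · obtain rfl : z = Sum.inr q := hz
        exact hx
      · obtain rfl : Sum.inl k = z := hz
        change Sum.inl (h k) ∈ U
        by_contra hne
        have h5 : h (g.symm (h k)) = g (g.symm (h k)) := hy2 _ (by simpa using hne)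
        rw [Equiv.apply_symm_apply] at h5
        apply hk
        rw [← h.injective h5]
        simpa using hne
    · have h1 : IsOpen ({Sum.inr q} : Set (C m)) := by
        refine isOpen_tC.2 fun p hp hp' => ?_
        obtain rfl : p = q := by simpa using hp'
        exact absurd hp hq
      have h2 := (continuous_snd.tendsto (g, (Sum.inr q : C m))).eventually (h1.mem_nhds rfl)
      filter_upwards [h2] with y hy1
      obtain ⟨h, z⟩ := y
      obtain rfl : z = Sum.inr q := hy1
      exact hx

theorem mul_cont_pG : @Continuous (G × G) G (@instTopologicalSpaceProd _ _ pG pG) pG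
    (fun x => x.1 * x.2) := by
  let := pG
  refine continuous_iff_continuousAt.2 fun x => tendsto_pG.2 fun k => ?_
  filter_upwards [tendsto_pG.1 (continuous_fst.tendsto x) (x.2 k),
    tendsto_pG.1 (continuous_snd.tendsto x) k] with y h1 h2
  simp [h1, h2]

theorem T_good {m : ℕ} (o : Option (Fin (m + 2))) :
    @PolishSpace _ (T o) ∧ @ContinuousMul _ (T o) (sg m).toMul := by
  let := pG
  let := tC o
  have := polish_pG
  have := polish_tC o
  refine ⟨inferInstance, @ContinuousMul.mk _ _ (sg m).toMul ?_⟩
  change Continuous fun x : (G ⊕ C m) × (G ⊕ C m) => mul x.1 x.2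
  rw [← (Homeomorph.sumProdDistrib (X := G) (Y := C m) (Z := G ⊕ C m)).symm.comp_continuous_iff']
  refine continuous_sum_dom.2 ⟨?_, continuous_inr.comp continuous_fst⟩
  change Continuous fun x : G × (G ⊕ C m) => mul (Sum.inl x.1) x.2
  rw [← (Homeomorph.prodSumDistrib (X := G) (Y := G) (Z := C m)).symm.comp_continuous_iff']
  exact continuous_sum_dom.2 ⟨continuous_inl.comp mul_cont_pG, continuous_inr.comp (act_cont o)⟩

theorem T_inj {m : ℕ} : Function.Injective (T (m := m)) := by
  intro o o' h
  apply tC_inj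
  have h1 : ∀ o : Option (Fin (m + 2)), tC o = TopologicalSpace.induced Sum.inr (T o) := fun o => by
    let := pG
    let := tC o
    exact (IsOpenEmbedding.inr (X := G) (Y := C m)).isInducing.eq_induced
  rw [h1, h1, h]

theorem classify {m : ℕ} (τ : TopologicalSpace (G ⊕ C m)) (hP : PolishSpace (G ⊕ C m))
    (hM : @ContinuousMul _ τ (sg m).toMul) : ∃ o, T o = τ := by
  have hm : Continuous fun x : (G ⊕ C m) × (G ⊕ C m) => mul x.1 x.2 :=
    @ContinuousMul.continuous_mul _ _ (sg m).toMul hM
  have hr : ∀ a, Continuous fun s : G ⊕ C m => mul s a := fun a =>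
    hm.comp (continuous_id.prodMk continuous_const)
  have cR : IsClosed (range (Sum.inr : C m → G ⊕ C m)) := by
    convert isClosed_eq (hr (Sum.inr (Sum.inl 0))) continuous_id using 1
    ext x
    rcases x with g | x <;> simp [mul]
  have cL : IsClosed (range (Sum.inl : G → G ⊕ C m)) := by
    convert (isClosed_eq (hr (Sum.inr (Sum.inr 0)))
      (continuous_const (y := Sum.inr (Sum.inr 0)))).inter
      (isClosed_eq (hr (Sum.inr (Sum.inr 1)))
      (continuous_const (y := Sum.inr (Sum.inr 1)))) using 1
    ext x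
    rcases x with g | x
    · simp [mul, act]
    · simp only [mul, mem_range, mem_inter_iff, mem_ofPred_eq, Sum.inr.injEq]
      constructor
      · rintro ⟨_, h⟩
        cases h
      · rintro ⟨rfl, h⟩
        simp at h
  let tG : TopologicalSpace G := τ.induced Sum.inl
  let tD : TopologicalSpace (C m) := τ.induced Sum.inr
  have eL : IsClosedEmbedding (Sum.inl : G → G ⊕ C m) := ⟨⟨⟨rfl⟩, Sum.inl_injective⟩, cL⟩
  have eR : IsClosedEmbedding (Sum.inr : C m → G ⊕ C m) := ⟨⟨⟨rfl⟩, Sum.inr_injective⟩, cR⟩
  have oL : IsOpenEmbedding (Sum.inl : G → G ⊕ C m) :=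
    ⟨eL.isEmbedding, by rw [← compl_range_inr]; exact cR.isOpen_compl⟩
  have oR : IsOpenEmbedding (Sum.inr : C m → G ⊕ C m) :=
    ⟨eR.isEmbedding, by rw [← compl_range_inl]; exact cL.isOpen_compl⟩
  have pL := eL.polishSpace
  have pR := eR.polishSpace
  have hsum : τ = @instTopologicalSpaceSum G (C m) tG tD := by
    ext U
    rw [@isOpen_sum_iff G (C m) tG tD]
    refine ⟨fun h => ⟨h.preimage oL.continuous, h.preimage oR.continuous⟩, fun h => ?_⟩
    rw [← image_preimage_inl_union_image_preimage_inr U]
    exact (oL.isOpenMap _ h.1).union (oR.isOpenMap _ h.2)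
  have ca : Continuous fun x : G × C m => act x.1 x.2 := by
    rw [eR.isInducing.continuous_iff]
    exact hm.comp ((oL.continuous.comp continuous_fst).prodMk (oR.continuous.comp continuous_snd))
  have cm : Continuous fun x : G × G => x.1 * x.2 := by
    rw [eL.isInducing.continuous_iff]
    exact hm.comp ((oL.continuous.comp continuous_fst).prodMk (oL.continuous.comp continuous_snd))
  have iso : ∀ k, IsOpen ({Sum.inl k} : Set (C m)) := by
    have h1 := dense_iUnion_interior_of_closed (f := fun x : C m => ({x} : Set (C m)))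
      (fun x => isClosed_singleton) (iUnion_of_singleton _)
    have h2 : IsOpen (range (Sum.inl : ℕ → C m)) := by
      rw [← compl_range_inr]
      exact (finite_range _).isClosed.isOpen_compl
    obtain ⟨x, ⟨k, rfl⟩, hx⟩ := h1.inter_open_nonempty _ h2 (range_nonempty _)
    obtain ⟨y, hy⟩ := mem_iUnion.1 hx
    obtain rfl : Sum.inl k = y := mem_singleton_iff.1 (interior_subset hy)
    have h3 : IsOpen ({Sum.inl k} : Set (C m)) := by
      rw [← subset_interior_iff_isOpen]
      simpa using hy
    intro j
    have h4 : Continuous fun x : C m => act (Equiv.swap k j) x :=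
      ca.comp (continuous_const.prodMk continuous_id)
    convert h3.preimage h4 using 1
    ext x
    rcases x with a | a
    · simp only [act, mem_singleton_iff, Sum.inl.injEq, mem_preimage, Sum.map_inl]
      rw [Equiv.swap_apply_eq_iff, Equiv.swap_apply_left]
    · simp [act]
  have hG : tG = pG := by
    refine auto tG pG pL polish_pG ?_ ?_ ?_ ?_
    · refine continuous_id_iff_le.1 ((@continuous_iff_continuousAt _ _ tG pG _).2 fun g => ?_)
      refine tendsto_pG.2 fun k => ?_
      have h4 : Continuous fun h : G => act h (Sum.inl k : C m) :=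
        ca.comp (continuous_id.prodMk continuous_const)
      filter_upwards [(h4.tendsto g).eventually ((iso (g k)).mem_nhds rfl)] with h hh
      exact Sum.inl.inj (mem_singleton_iff.1 hh)
    · intro g
      let := pG
      exact mul_cont_pG.comp (continuous_const.prodMk continuous_id)
    · intro g
      let := pG
      exact mul_cont_pG.comp (continuous_id.prodMk continuous_const)
    · intro g
      exact cm.comp (continuous_id.prodMk continuous_const)
  have big : ∀ p, ¬ IsOpen ({Sum.inr p} : Set (C m)) → ∀ U : Set (C m), IsOpen U →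
      Sum.inr p ∈ U → ∀ᶠ k in cofinite, Sum.inl k ∈ U := by
    intro p hp U hU hpU
    by_contra hB
    have hB' : {k | Sum.inl k ∉ U}.Infinite := hB
    have h1 : ∀ᶠ y in 𝓝 ((1 : G), (Sum.inr p : C m)), act y.1 y.2 ∈ U :=
      (ca.tendsto _).eventually (hU.mem_nhds hpU)
    rw [nhds_prod_eq] at h1
    obtain ⟨W, hW, V, hV, hWV⟩ := eventually_prod_iff.1 h1
    let b := hB'.natEmbedding
    have hVi : {k | V (Sum.inl k)}.Infinite := by
      intro hfin
      apply hp
      have h2 : (({Sum.inr p}ᶜ : Set (C m)) ∩ (Sum.inl '' {k | V (Sum.inl k)} ∪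
          range Sum.inr)).Finite := ((hfin.image _).union (finite_range _)).inter_of_right _
      have h3 := h2.isClosed.isOpen_compl.mem_nhds (x := Sum.inr p) (by simp)
      refine isOpen_iff_mem_nhds.2 ?_
      rintro x rfl
      filter_upwards [h3, hV] with y hy1 hy2
      by_contra hy
      apply hy1
      refine ⟨hy, ?_⟩
      rcases y with a | a
      · exact Or.inl ⟨a, hy2, rfl⟩
      · exact Or.inr ⟨a, rfl⟩
    let v := hVi.natEmbedding
    have h5 : Tendsto (fun n => Equiv.swap (v n : ℕ) (b n : ℕ)) atTop (@nhds G pG 1) := by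
      refine tendsto_pG.2 fun k => ?_
      have e1 : ∀ᶠ n in cofinite, (v n : ℕ) ≠ k :=
        (Subtype.val_injective.comp v.injective).tendsto_cofinite.eventually
          (eventually_cofinite_ne k)
      have e2 : ∀ᶠ n in cofinite, (b n : ℕ) ≠ k :=
        (Subtype.val_injective.comp b.injective).tendsto_cofinite.eventually
          (eventually_cofinite_ne k)
      rw [← Nat.cofinite_eq_atTop]
      filter_upwards [e1, e2] with n h1 h2
      exact Equiv.swap_apply_of_ne_of_ne h1.symm h2.symm
    rw [← hG] at h5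
    obtain ⟨n, hn⟩ := (h5.eventually hW).exists
    have h6 := hWV hn (v n).2
    apply (b n).2
    simpa [act] using h6
  have fin : ∀ o : Option (Fin (m + 2)), (∀ p, o = some p ↔ ¬ IsOpen ({Sum.inr p} : Set (C m))) →
      T o = τ := by
    intro o ho
    have : tC o = tD := by
      ext U
      rw [isOpen_tC]
      refine ⟨fun h => ?_, fun h p hp hpU => big p ((ho p).1 hp) U h hpU⟩
      refine isOpen_iff_mem_nhds.2 ?_
      rintro (k | q) hx
      · exact mem_of_superset ((iso k).mem_nhds rfl) (by simpa using hx)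
      · by_cases hq : o = some q
        · have h1 : {k | Sum.inl k ∉ U}.Finite := h q hq hx
          have h2 : Uᶜ.Finite := by
            refine ((h1.image Sum.inl).union (finite_range Sum.inr)).subset ?_
            rintro (a | a) ha
            · exact Or.inl ⟨a, ha, rfl⟩
            · exact Or.inr ⟨a, rfl⟩
          exact (isClosed_compl_iff.1 h2.isClosed).mem_nhds hx
        · have h1 : IsOpen ({Sum.inr q} : Set (C m)) := by
            by_contra h1
            exact hq ((ho q).2 h1)
          exact mem_of_superset (h1.mem_nhds rfl) (by simpa using hx)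
    rw [hsum, hG, ← this]
  by_cases hex : ∃ p, ¬ IsOpen ({Sum.inr p} : Set (C m))
  · obtain ⟨p, hp⟩ := hex
    refine ⟨some p, fin _ fun q => ⟨fun h => Option.some.inj h ▸ hp, fun hq => ?_⟩⟩
    by_contra hne
    have hne' : (Sum.inr p : C m) ≠ Sum.inr q := fun h => hne (by rw [Sum.inr.inj h])
    obtain ⟨U, V, hU, hV, h1, h2, hd⟩ := t2_separation hne'
    obtain ⟨k, hk1, hk2⟩ := ((big p hp U hU h1).and (big q hq V hV h2)).exists
    exact disjoint_left.1 hd hk1 hk2
  · exact ⟨none, fin _ fun q => ⟨fun h => (by cases h), fun hq => absurd ⟨q, hq⟩ hex⟩⟩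

theorem result (n : ℕ) (hn : 3 ≤ n) : ∃ (S : Type) (_ : Semigroup S),
    Cardinal.mk {τ : TopologicalSpace S // @PolishSpace S τ ∧ @ContinuousMul S τ _} = n := by
  obtain ⟨m, rfl⟩ : ∃ m, n = m + 3 := ⟨n - 3, by omega⟩
  refine ⟨G ⊕ C m, sg m, ?_⟩
  have e : Option (Fin (m + 2)) ≃ {τ : TopologicalSpace (G ⊕ C m) //
      @PolishSpace _ τ ∧ @ContinuousMul _ τ (sg m).toMul} :=
    Equiv.ofBijective (fun o => ⟨T o, T_good o⟩) ⟨fun a b h => T_inj (congrArg Subtype.val h),
      fun τ => by
        obtain ⟨o, ho⟩ := classify τ.1 τ.2.1 τ.2.2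
        exact ⟨o, Subtype.ext ho⟩⟩
  rw [← Cardinal.mk_congr e]
  simp
  norm_cast

end Pool.Agent.Results.MP_67072b_lc.Finite
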